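import Pool.Agent.H44.AR.BasicA

/-!
# All reducts, all arities: row COL (identified elements)
-/

set_option autoImplicit false

namespace Pool.Agent.H60.AR

open Pool.Agent.H68.BP Pool.Agent.H58.SF Pool.Agent.H53.GC Pool.Agent.H53.NR Pool.Agent.H53.GR
open Pool.Agent.H57.AR Pool.Agent.H44.AR
open Pool.Agent.H57.EQ (Cx)

section

variable {ρ : Sig} {V : Type} [LinearOrder V]

/-- names: the elements of the tuple, and the types -/
abbrev WN (𝔹 : Str ρ V) {k : ℕ} (u : Fin k → V) : Type :=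
  Set.range u ⊕ {s : T1 ρ // ∃ x, ty 𝔹 x = s}

/-- the elements for the names -/
noncomputable def el (𝔹 : Str ρ V) {k : ℕ} (u : Fin k → V) : WN 𝔹 u → V :=
  Sum.elim (fun x => x.1) (fun s => s.2.choose)

/-- the ranks -/
def rkn (𝔹 : Str ρ V) {k : ℕ} (u : Fin k → V) (enc : T1 ρ → ℕ) : WN 𝔹 u → ℕ ⊕ₗ V :=
  Sum.elim (fun x => toLex (Sum.inr x.1)) (fun s => toLex (Sum.inl (enc s.1)))

/-- the name of the element number `a` -/
noncomputable def wn (𝔹 : Str ρ V) (D : Set (T1 ρ)) {k : ℕ} (u : Fin k → V) (a : Fin k) :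
    WN 𝔹 u :=
  open Classical in
  if ty 𝔹 (u a) ∈ D then Sum.inr ⟨ty 𝔹 (u a), ⟨u a, rfl⟩⟩ else Sum.inl ⟨u a, ⟨a, rfl⟩⟩

/-- the properties of the configuration -/
structure Cfg (𝔹 : Str ρ V) {k : ℕ} (u : Fin k → V) (enc : T1 ρ → ℕ) (f : WN 𝔹 u → V) :
    Prop where
  lt : ∀ x y, f x < f y ↔ rkn 𝔹 u enc x < rkn 𝔹 u enc y
  rel : ∀ (l : Fin ρ.m) (z : Fin (ρ.ar l) → WN 𝔹 u), 𝔹 l (fun i => f (z i)) ↔
    (𝔹 l (fun i => el 𝔹 u (z i)) ∧ ∀ i j, z i = z j ∨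
      (((z i).isLeft = true ∧ (z j).isLeft = true) ∧ el 𝔹 u (z i) ≠ el 𝔹 u (z j)))

theorem exists_cfg (hSYN : T_SYN) (𝔹 : Str ρ V) (M : ℕ) (hUn : Un 𝔹 M) {k : ℕ} (u : Fin k → V)
    (enc : T1 ρ → ℕ) (henc : Function.Injective enc) : ∃ f, Cfg 𝔹 u enc f := by
  obtain ⟨f, h1, h2⟩ := hSYN ρ V 𝔹 M hUn (WN 𝔹 u) (ℕ ⊕ₗ V) (rkn 𝔹 u enc) (el 𝔹 u)
    (fun x y => x.isLeft = true ∧ y.isLeft = true) (by
      rintro (x | x) (y | y) hxy
      · have h := Sum.inr_injective (toLex.injective hxy)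
        rw [Subtype.ext h]
      · have h := toLex.injective hxy
        exact absurd h (by simp)
      · have h := toLex.injective hxy
        exact absurd h (by simp)
      · have h := Sum.inl_injective (toLex.injective hxy)
        rw [Subtype.ext (henc h)]) (fun x y h => ⟨h.2, h.1⟩)
  exact ⟨f, h1, h2⟩

variable {𝔹 : Str ρ V} {D : Set (T1 ρ)} {k : ℕ} {u : Fin k → V} {enc : T1 ρ → ℕ}
  {f : WN 𝔹 u → V}

theorem wn_mem {a : Fin k} (h : ty 𝔹 (u a) ∈ D) :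
    wn 𝔹 D u a = Sum.inr ⟨ty 𝔹 (u a), ⟨u a, rfl⟩⟩ := if_pos h

theorem wn_not {a : Fin k} (h : ty 𝔹 (u a) ∉ D) : wn 𝔹 D u a = Sum.inl ⟨u a, ⟨a, rfl⟩⟩ :=
  if_neg h

/-- the order of the configuration -/
theorem Cfg.lt_wn (hf : Cfg 𝔹 u enc f) (a b : Fin k) : f (wn 𝔹 D u a) < f (wn 𝔹 D u b) ↔
    (ty 𝔹 (u a) ∉ D ∧ ty 𝔹 (u b) ∉ D ∧ u a < u b) ∨ (ty 𝔹 (u a) ∈ D ∧ ty 𝔹 (u b) ∉ D) ∨
      (ty 𝔹 (u a) ∈ D ∧ ty 𝔹 (u b) ∈ D ∧ enc (ty 𝔹 (u a)) < enc (ty 𝔹 (u b))) := by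
  rw [hf.lt]
  by_cases ha : ty 𝔹 (u a) ∈ D <;> by_cases hb : ty 𝔹 (u b) ∈ D
  · rw [wn_mem ha, wn_mem hb]
    simp [rkn, ha, hb, Sum.Lex.inl_lt_inl_iff]
  · rw [wn_mem ha, wn_not hb]
    simp [rkn, ha, hb, Sum.Lex.inl_lt_inr]
  · rw [wn_not ha, wn_mem hb]
    simp [rkn, ha, hb, Sum.Lex.not_inr_lt_inl]
  · rw [wn_not ha, wn_not hb]
    simp [rkn, ha, hb, Sum.Lex.inr_lt_inr_iff]

/-- the relations of the configuration -/
theorem Cfg.rel_wn (hf : Cfg 𝔹 u enc f) (har : ∀ l, 1 ≤ ρ.ar l) (l : Fin ρ.m)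
    (z : Fin (ρ.ar l) → Fin k) : 𝔹 l (fun i => f (wn 𝔹 D u (z i))) ↔
    ((∀ i, ty 𝔹 (u (z i)) ∉ D) ∧ 𝔹 l (fun i => u (z i))) ∨
      ∃ s ∈ D, (∀ i, ty 𝔹 (u (z i)) = s) ∧ s l := by
  rw [hf.rel]
  constructor
  · rintro ⟨h1, h2⟩
    by_cases hD : ∀ i, ty 𝔹 (u (z i)) ∉ D
    · left
      refine ⟨hD, ?_⟩
      have e : (fun i => el 𝔹 u (wn 𝔹 D u (z i))) = fun i => u (z i) := by
        funext i
        rw [wn_not (hD i)]
        rfl
      rwa [e] at h1
    · right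
      push Not at hD
      obtain ⟨i0, hi0⟩ := hD
      have h3 : ∀ j, wn 𝔹 D u (z j) = Sum.inr ⟨ty 𝔹 (u (z i0)), ⟨u (z i0), rfl⟩⟩ := by
        intro j
        rcases h2 i0 j with h | h
        · rw [← h, wn_mem hi0]
        · exfalso
          have := h.1.1
          rw [wn_mem hi0] at this
          exact Bool.noConfusion this
      refine ⟨ty 𝔹 (u (z i0)), hi0, ?_, ?_⟩
      · intro j
        by_cases hj : ty 𝔹 (u (z j)) ∈ D
        · have h4 := h3 j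
          rw [wn_mem hj] at h4
          exact congrArg Subtype.val (Sum.inr_injective h4)
        · have h4 := h3 j
          rw [wn_not hj] at h4
          exact absurd h4 (by simp)
      · have h4 : ∃ x, ty 𝔹 x = ty 𝔹 (u (z i0)) := ⟨_, rfl⟩
        have e : (fun i => el 𝔹 u (wn 𝔹 D u (z i))) = fun _ => h4.choose := by
          funext i
          rw [h3 i]
          rfl
        rw [e] at h1
        have h5 : ty 𝔹 h4.choose l := h1
        rw [h4.choose_spec] at h5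
        exact h5
  · rintro (⟨hD, h1⟩ | ⟨s, hs, h1, h2⟩)
    · have e : (fun i => el 𝔹 u (wn 𝔹 D u (z i))) = fun i => u (z i) := by
        funext i
        rw [wn_not (hD i)]
        rfl
      refine ⟨by rw [e]; exact h1, ?_⟩
      intro i j
      rw [wn_not (hD i), wn_not (hD j)]
      by_cases h : u (z i) = u (z j)
      · left
        congr 1
        exact Subtype.ext h
      · right
        exact ⟨⟨rfl, rfl⟩, h⟩
    · have i0 : Fin (ρ.ar l) := ⟨0, har l⟩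
      have hmem : ∀ i, ty 𝔹 (u (z i)) ∈ D := fun i => by rw [h1 i]; exact hs
      have h3 : ∀ j, wn 𝔹 D u (z j) = Sum.inr ⟨ty 𝔹 (u (z i0)), ⟨u (z i0), rfl⟩⟩ := by
        intro j
        rw [wn_mem (hmem j)]
        congr 1
        exact Subtype.ext ((h1 j).trans (h1 i0).symm)
      have h4 : ∃ x, ty 𝔹 x = ty 𝔹 (u (z i0)) := ⟨_, rfl⟩
      have e : (fun i => el 𝔹 u (wn 𝔹 D u (z i))) = fun _ => h4.choose := by
        funext i
        rw [h3 i]
        rfl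
      refine ⟨?_, fun i j => Or.inl (by rw [h3 i, h3 j])⟩
      rw [e]
      have h5 : ty 𝔹 h4.choose l := by
        rw [h4.choose_spec, h1 i0]
        exact h2
      exact h5

/-- the tuple of the elements -/
theorem Cfg.tpo_inl (hf : Cfg 𝔹 u enc f) :
    tpo 𝔹 (fun a => f (Sum.inl ⟨u a, ⟨a, rfl⟩⟩)) = tpo 𝔹 u := by
  rw [tpo_eq_iff]
  constructor
  · intro l z
    rw [hf.rel]
    constructor
    · intro h
      exact h.1
    · intro h
      refine ⟨h, fun i j => ?_⟩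
      by_cases h' : u (z i) = u (z j)
      · left
        congr 1
        exact Subtype.ext h'
      · right
        exact ⟨⟨rfl, rfl⟩, h'⟩
  · intro a b
    rw [hf.lt]
    simp [rkn, Sum.Lex.inr_lt_inr_iff]

/-- a type and an element -/
theorem Cfg.tpo_pair (hf : Cfg 𝔹 u enc f) (har : ∀ l, 1 ≤ ρ.ar l) (a : Fin k) :
    tpo 𝔹 (fun i : Fin 2 => f (![Sum.inr ⟨ty 𝔹 (u a), ⟨u a, rfl⟩⟩, Sum.inl ⟨u a, ⟨a, rfl⟩⟩] i)) =
      frp (ty 𝔹 (u a)) (ty 𝔹 (u a)) := by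
  have h4 : ∃ x, ty 𝔹 x = ty 𝔹 (u a) := ⟨_, rfl⟩
  refine Prod.ext ?_ ?_
  · funext l z
    apply propext
    have h0 := hf.rel l (fun i => (![Sum.inr ⟨ty 𝔹 (u a), ⟨u a, rfl⟩⟩,
      Sum.inl ⟨u a, ⟨a, rfl⟩⟩] : Fin 2 → WN 𝔹 u) (z i))
    refine h0.trans ?_
    constructor
    · rintro ⟨h1, h2⟩
      let i0 : Fin (ρ.ar l) := ⟨0, har l⟩
      have hcase : z i0 = 0 ∨ z i0 = 1 := by
        generalize z i0 = t
        fin_cases t
        · left; rfl
        · right; rfl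
      rcases hcase with h3 | h3
      · left
        have hz : ∀ i, z i = 0 := by
          intro i
          by_contra hi
          have hi1 : z i = 1 := by
            generalize z i = t at hi ⊢
            fin_cases t
            · exact absurd rfl hi
            · rfl
          have h5 := h2 i0 i
          rw [h3, hi1] at h5
          rcases h5 with h5 | h5
          · exact absurd h5 (by simp)
          · exact Bool.noConfusion h5.1.1
        refine ⟨hz, ?_⟩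
        have e : (fun i => el 𝔹 u ((![Sum.inr ⟨ty 𝔹 (u a), ⟨u a, rfl⟩⟩,
            Sum.inl ⟨u a, ⟨a, rfl⟩⟩] : Fin 2 → WN 𝔹 u) (z i))) = fun _ => h4.choose := by
          funext i
          rw [hz i]
          rfl
        rw [e] at h1
        have h5 : ty 𝔹 h4.choose l := h1
        rw [h4.choose_spec] at h5
        exact h5
      · right
        have hz : ∀ i, z i = 1 := by
          intro i
          by_contra hi
          have hi1 : z i = 0 := by
            generalize z i = t at hi ⊢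
            fin_cases t
            · rfl
            · exact absurd rfl hi
          have h5 := h2 i i0
          rw [h3, hi1] at h5
          rcases h5 with h5 | h5
          · exact absurd h5 (by simp)
          · exact Bool.noConfusion h5.1.1
        refine ⟨hz, ?_⟩
        have e : (fun i => el 𝔹 u ((![Sum.inr ⟨ty 𝔹 (u a), ⟨u a, rfl⟩⟩,
            Sum.inl ⟨u a, ⟨a, rfl⟩⟩] : Fin 2 → WN 𝔹 u) (z i))) = fun _ => u a := by
          funext i
          rw [hz i]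
          rfl
        rw [e] at h1
        exact h1
    · rintro (⟨hz, h1⟩ | ⟨hz, h1⟩)
      · have e : (fun i => el 𝔹 u ((![Sum.inr ⟨ty 𝔹 (u a), ⟨u a, rfl⟩⟩,
            Sum.inl ⟨u a, ⟨a, rfl⟩⟩] : Fin 2 → WN 𝔹 u) (z i))) = fun _ => h4.choose := by
          funext i
          rw [hz i]
          rfl
        refine ⟨?_, fun i j => Or.inl (by rw [hz i, hz j])⟩
        rw [e]
        have h5 : ty 𝔹 h4.choose l := by
          rw [h4.choose_spec]
          exact h1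
        exact h5
      · have e : (fun i => el 𝔹 u ((![Sum.inr ⟨ty 𝔹 (u a), ⟨u a, rfl⟩⟩,
            Sum.inl ⟨u a, ⟨a, rfl⟩⟩] : Fin 2 → WN 𝔹 u) (z i))) = fun _ => u a := by
          funext i
          rw [hz i]
          rfl
        refine ⟨?_, fun i j => Or.inl (by rw [hz i, hz j])⟩
        rw [e]
        exact h1
  · funext i j
    apply propext
    have h0 := hf.lt ((![Sum.inr ⟨ty 𝔹 (u a), ⟨u a, rfl⟩⟩,
      Sum.inl ⟨u a, ⟨a, rfl⟩⟩] : Fin 2 → WN 𝔹 u) i) ((![Sum.inr ⟨ty 𝔹 (u a), ⟨u a, rfl⟩⟩,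
      Sum.inl ⟨u a, ⟨a, rfl⟩⟩] : Fin 2 → WN 𝔹 u) j)
    refine h0.trans ?_
    fin_cases i <;> fin_cases j <;> simp [rkn, frp, Sum.Lex.inl_lt_inr, Sum.Lex.not_inr_lt_inl]

end

theorem pf_COL (hSYN : T_SYN) : Pool.Agent.H44.AR.T_COL := by
  intro σ ρ ρ' V V' _ _ 𝔸 𝔹 𝔸' 𝔹' M hUn m D hUM hClp
  haveI : Finite (T1 ρ) := inferInstance
  obtain ⟨enc, henc⟩ := (inferInstance : Countable (T1 ρ)).exists_injective_nat
  have har : ∀ l, 1 ≤ ρ.ar l := fun l => (hUn.ar l).1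
  -- reduction to the configuration
  have red : ∀ (k : ℕ) (u : Fin k → V) (f : WN 𝔹 u → V), Cfg 𝔹 u enc f →
      m k (tpo 𝔹 u) = m k (tpo 𝔹 (fun a => f (wn 𝔹 D u a))) := by
    intro k u f hf
    obtain ⟨ψ, -, hψ⟩ := hUM (WN 𝔹 u) f
    have h1 := hψ k (fun a => Sum.inl ⟨u a, ⟨a, rfl⟩⟩)
    have h2 := hψ k (fun a => wn 𝔹 D u a)
    rw [hf.tpo_inl] at h1
    rw [← h1, ← h2]
    congr 1
    funext a
    by_cases ha : ty 𝔹 (u a) ∈ D
    · rw [wn_mem ha]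
      have h3 := hψ 2 ![Sum.inr ⟨ty 𝔹 (u a), ⟨u a, rfl⟩⟩, Sum.inl ⟨u a, ⟨a, rfl⟩⟩]
      rw [hf.tpo_pair har a] at h3
      have h4 := hClp (u a) ha
      unfold Clp at h4
      rw [← h3, eqO_tpo] at h4
      exact h4.symm
    · rw [wn_not ha]
  intro k u u' hS
  obtain ⟨f, hf⟩ := exists_cfg hSYN 𝔹 M hUn u enc henc
  obtain ⟨f', hf'⟩ := exists_cfg hSYN 𝔹 M hUn u' enc henc
  rw [red k u f hf, red k u' f' hf']
  congr 1
  rw [tpo_eq_iff]
  constructor
  · intro l z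
    rw [hf.rel_wn har, hf'.rel_wn har]
    simp only [hS.typ]
    constructor
    · rintro (⟨h1, h2⟩ | h)
      · exact Or.inl ⟨h1, (hS.rel l z h1).2 h2⟩
      · exact Or.inr h
    · rintro (⟨h1, h2⟩ | h)
      · exact Or.inl ⟨h1, (hS.rel l z h1).1 h2⟩
      · exact Or.inr h
  · intro a b
    rw [hf.lt_wn, hf'.lt_wn]
    simp only [hS.typ]
    constructor
    · rintro (⟨h1, h2, h3⟩ | h)
      · exact Or.inl ⟨h1, h2, (hS.lt a b h1 h2).2 h3⟩
      · exact Or.inr h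
    · rintro (⟨h1, h2, h3⟩ | h)
      · exact Or.inl ⟨h1, h2, (hS.lt a b h1 h2).1 h3⟩
      · exact Or.inr h

end Pool.Agent.H60.AR
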