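import Pool.Agent.H44.AR.BasicA
import Pool.Agent.H95.GR.POW

/-!
# All reducts, all arities: row PWO (the Olšák map with the ordered types of its values)
-/

set_option autoImplicit false

namespace Pool.Agent.H60.AR

open Pool.Agent.H68.BP Pool.Agent.H58.SF Pool.Agent.H53.GC Pool.Agent.H53.NR Pool.Agent.H53.GR
open Pool.Agent.H57.AR Pool.Agent.H44.AR
open Pool.Agent.H57.SO (Pal Col vt Sb FBl)
open Pool.Agent.H57.EQ (Cx)
open Pool.Agent.H95.GR (ext ext_map ext_castLE)

/-- the entry `a` at the place zero, then `b` -/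
def cf {M : ℕ} {W : Type} (a b : W) (i : Fin M) : W := if (i : ℕ) = 0 then a else b

theorem cf_map {M : ℕ} {W W' : Type} (f : W → W') (a b : W) (i : Fin M) :
    f (cf a b i) = cf (f a) (f b) i := by
  unfold cf
  split_ifs <;> rfl

section

variable {ρ : Sig} {V : Type} [LinearOrder V] {M : ℕ}

/-- the ordered types given by `h` -/
def hz (har : ∀ l, 1 ≤ ρ.ar l ∧ ρ.ar l < M) (h3 : 3 ≤ M)
    (h : (Fin M → Fin 6 → V) → OT ρ (Fin M)) : OT ρ (Fin 6 → V) :=
  (fun l z => (h (fun i => ext (har l).1 z i)).1 l (fun i => Fin.castLE (har l).2.le i),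
    fun v w => (h (fun i => cf v w i)).2 ⟨0, by omega⟩ ⟨1, by omega⟩)

theorem hz_eq (𝔹 : Str ρ V) (har : ∀ l, 1 ≤ ρ.ar l ∧ ρ.ar l < M) (h3 : 3 ≤ M)
    (h : (Fin M → Fin 6 → V) → OT ρ (Fin M)) {W : Type} (x : W → V) (v : W → Fin 6 → V)
    (hx : ∀ α : Fin M → W, tpo 𝔹 (fun i => x (α i)) = h (fun i => v (α i))) :
    tpo 𝔹 x = pullO (hz har h3 h) v := by
  refine Prod.ext ?_ ?_
  · funext l z
    have h1 := hx (fun i => ext (har l).1 z i)
    have h2 : (fun i : Fin M => v (ext (har l).1 z i)) =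
        fun i => ext (har l).1 (fun j => v (z j)) i := by
      funext i
      exact ext_map (har l).1 v z i
    have h3' : (pullO (hz har h3 h) v).1 l z =
        (h (fun i => ext (har l).1 (fun j => v (z j)) i)).1 l
          (fun i => Fin.castLE (har l).2.le i) := rfl
    rw [h3', ← h2, ← h1]
    have h4 : (tpo 𝔹 (fun i : Fin M => x (ext (har l).1 z i))).1 l
        (fun i => Fin.castLE (har l).2.le i) =
        𝔹 l (fun i => x (ext (har l).1 z (Fin.castLE (har l).2.le i))) := rfl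
    rw [h4]
    have h5 : (fun i => x (ext (har l).1 z (Fin.castLE (har l).2.le i))) = fun i => x (z i) := by
      funext i
      rw [ext_castLE]
    rw [h5]
    rfl
  · funext a b
    have h1 := hx (fun i => cf a b i)
    have h2 : (fun i : Fin M => v (cf a b i)) = fun i => cf (v a) (v b) i := by
      funext i
      exact cf_map v a b i
    have h3' : (pullO (hz har h3 h) v).2 a b =
        (h (fun i => cf (v a) (v b) i)).2 ⟨0, by omega⟩ ⟨1, by omega⟩ := rfl
    rw [h3', ← h2, ← h1]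
    have h4 : (tpo 𝔹 (fun i : Fin M => x (cf a b i))).2 ⟨0, by omega⟩ ⟨1, by omega⟩ =
        (x (cf a b (⟨0, by omega⟩ : Fin M)) < x (cf a b (⟨1, by omega⟩ : Fin M))) := rfl
    rw [h4]
    rfl

end

theorem pf_PWO (hPWG : T_PWG) (hRLZ : T_RLZ) : T_PWO := by
  intro σ ρ V _ 𝔸 𝔹 M hUn hol hK hBl
  haveI hfin : Finite (OT ρ (Fin M)) := by
    haveI : Finite (Str ρ (Fin M)) := by
      unfold Str
      infer_instance
    infer_instance
  have h3 := hUn.three
  obtain ⟨h, hh1, hh2⟩ := hPWG σ V (OT ρ (Fin M)) 𝔸 M (fun p => tpo 𝔹 p) hUn.cnt hUn.ne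
    (by omega) hol hK
  have key : ∀ (s : Option (Fin σ.m)) (v : Fin (arP σ M s) → Fin 6 → V),
      (∀ c, relP 𝔸 M s (fun a => v a c)) →
      ∃ x : Fin (arP σ M s) → V, relP 𝔸 M s x ∧ tpo 𝔹 x = pullO (hz hUn.ar h3 h) v := by
    intro s v hv
    obtain ⟨x, hx1, hx2⟩ := hh1 s v hv
    exact ⟨x, hx1, hz_eq 𝔹 hUn.ar h3 h x v hx2⟩
  refine ⟨hz hUn.ar h3 h, ?_, ?_⟩
  · intro W _ G
    obtain ⟨ψ, hψ⟩ := hRLZ ρ V 𝔹 M hUn W (pullO (hz hUn.ar h3 h) (fun w i => G i w)) (by
      intro p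
      obtain ⟨x, -, hx⟩ := key none (fun a c => G c (p a)) (fun _ => trivial)
      exact ⟨x, hx⟩)
    refine ⟨ψ, ?_, hψ⟩
    intro l z hz
    obtain ⟨x, hx1, hx2⟩ := key (some l) (fun a c => G c (z a)) (fun c => hz c)
    have h4 : tpo 𝔹 x = tpo 𝔹 (fun a => ψ (z a)) := by
      have h5 : tpo 𝔹 (fun a => ψ (z a)) = pullO (tpo 𝔹 ψ) z := rfl
      rw [h5, hψ, hx2]
      rfl
    exact hBl l x _ hx1 (SameD.of_tpo h4 ∅)
  · intro r
    refine Prod.ext ?_ ?_
    · funext l z
      have e : ∀ r : Fin 3, (pullO (hz hUn.ar h3 h) (fun p : V × V => pat r p.1 p.2)).1 l z =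
          (h (fun i => pat r (ext (hUn.ar l).1 z i).1 (ext (hUn.ar l).1 z i).2)).1 l
            (fun i => Fin.castLE (hUn.ar l).2.le i) := by
        intro r
        have h2 : (fun i : Fin M => pat r (ext (hUn.ar l).1 z i).1 (ext (hUn.ar l).1 z i).2) =
            fun i => ext (hUn.ar l).1 (fun j => pat r (z j).1 (z j).2) i := by
          funext i
          exact ext_map (hUn.ar l).1 (fun p : V × V => pat r p.1 p.2) z i
        rw [h2]
        rfl
      rw [e r, e 0, hh2 r]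
    · funext a b
      have e : ∀ r : Fin 3, (pullO (hz hUn.ar h3 h) (fun p : V × V => pat r p.1 p.2)).2 a b =
          (h (fun i => pat r (cf a b i).1 (cf a b i).2)).2 ⟨0, by omega⟩ ⟨1, by omega⟩ := by
        intro r
        have h2 : (fun i : Fin M => pat r (cf a b i).1 (cf a b i).2) =
            fun i => cf (pat r a.1 a.2) (pat r b.1 b.2) i := by
          funext i
          exact cf_map (fun p : V × V => pat r p.1 p.2) a b i
        rw [h2]
        rfl
      rw [e r, e 0, hh2 r]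

end Pool.Agent.H60.AR
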