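import Pool.Agent.H57.AR.Targets

/-!
# All reducts, all arities: row SHC (the Olšák function on the structure of pairs)
-/

set_option autoImplicit false

namespace Pool.Agent.H60.AR

open Pool.Agent.H68.BP Pool.Agent.H58.SF Pool.Agent.H53.GC Pool.Agent.H53.NR Pool.Agent.H53.GR
open Pool.Agent.H57.AR
open Pool.Agent.H57.SO (Pal Col vt Exa Sb FBl)
open Pool.Agent.H44.SO (str0)
open Pool.Agent.H57.EQ (Cx)

section

variable {ρ : Sig} {V V₀ S X : Type} [LinearOrder V] [LinearOrder V₀] {𝔹 : Str ρ V}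

theorem two_comp {W Z : Type} {x : Z → V} (h : Two 𝔹 x) {e : W → Z}
    (he : Function.Surjective e) : Two 𝔹 (fun i => x (e i)) := by
  intro l z hz
  obtain ⟨a, b, hab⟩ := h l (fun i => e (z i)) hz
  obtain ⟨a', rfl⟩ := he a
  obtain ⟨b', rfl⟩ := he b
  exact ⟨a', b', hab⟩

/-- the places of the entries -/
def pl (r : Fin 3) : Fin 6 ⊕ Fin 6 → Fin 4 := Sum.elim (pat r 0 1) (pat r 2 3)

theorem pl_surj (r : Fin 3) : Function.Surjective (pl r) := by
  intro j
  fin_cases r <;> fin_cases j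
  · exact ⟨Sum.inl 0, rfl⟩
  · exact ⟨Sum.inl 2, rfl⟩
  · exact ⟨Sum.inr 0, rfl⟩
  · exact ⟨Sum.inr 2, rfl⟩
  · exact ⟨Sum.inl 0, rfl⟩
  · exact ⟨Sum.inl 1, rfl⟩
  · exact ⟨Sum.inr 0, rfl⟩
  · exact ⟨Sum.inr 1, rfl⟩
  · exact ⟨Sum.inl 1, rfl⟩
  · exact ⟨Sum.inl 0, rfl⟩
  · exact ⟨Sum.inr 1, rfl⟩
  · exact ⟨Sum.inr 0, rfl⟩

theorem pl_eq {W : Type} (r : Fin 3) (q : Fin 4 → W) (i : Fin 6 ⊕ Fin 6) :
    Sum.elim (pat r (q 0) (q 1)) (pat r (q 2) (q 3)) i = q (pl r i) := by
  rcases i with i | i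
  · exact (pat_map q r 0 1 i).symm
  · exact (pat_map q r 2 3 i).symm

theorem eq_of_lt_iff {W : Type} {x : W → V} {y : W → V₀} (h : ∀ a b, x a < x b ↔ y a < y b)
    {a b : W} : x a = x b ↔ y a = y b := by
  constructor
  · intro he
    apply le_antisymm
    · exact not_lt.1 fun h' => by
        have := (h b a).2 h'
        rw [he] at this
        exact lt_irrefl _ this
    · exact not_lt.1 fun h' => by
        have := (h a b).2 h'
        rw [he] at this
        exact lt_irrefl _ this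
  · intro he
    apply le_antisymm
    · exact not_lt.1 fun h' => by
        have := (h b a).1 h'
        rw [he] at this
        exact lt_irrefl _ this
    · exact not_lt.1 fun h' => by
        have := (h a b).1 h'
        rw [he] at this
        exact lt_irrefl _ this

end

theorem pf_SHC (hSHB : T_SHB) : T_SHC := by
  intro σ ρ V S X _ P 𝔸 𝔹 M c hStp V₀ _ c₀ hShd h hcore
  obtain ⟨h₀, hcan, hspec⟩ := hSHB σ ρ V S X P 𝔸 𝔹 M c hStp V₀ c₀ hShd (Fin 6) h hcore.can
  refine ⟨h₀, ⟨hcan, ?_, ?_⟩, hspec⟩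
  · intro r x y x' y'
    obtain ⟨q, hq1, hq2⟩ := hShd.lift (Fin 4) ![x, y, x', y']
    have key : ∀ r : Fin 3, h₀ (pat r x y) (pat r x' y') =
        shv P h (pat r (q 0) (q 1)) (pat r (q 2) (q 3)) := by
      intro r
      apply hspec
      have e1 : ∀ i, Sum.elim (pat r (q 0) (q 1)) (pat r (q 2) (q 3)) i = q (pl r i) := pl_eq r q
      have e2 : ∀ i, Sum.elim (pat r x y) (pat r x' y') i =
          (![x, y, x', y'] : Fin 4 → V₀) (pl r i) := pl_eq r ![x, y, x', y']
      refine ⟨?_, ?_⟩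
      · have e3 : Sum.elim (pat r (q 0) (q 1)) (pat r (q 2) (q 3)) = fun i => q (pl r i) :=
          funext e1
        rw [e3]
        exact two_comp hq1 (pl_surj r)
      · intro i j
        rw [e1, e1, e2, e2]
        exact ⟨(hq2 _ _).1.symm, (hq2 _ _).2.symm⟩
    rw [key r, key 0]
    have h1 := hcore.exact r (q 0) (q 1) (q 2) (q 3)
    have h2 := hcore.exact r (q 0) (q 1) (q 0) (q 1)
    have h3 := hcore.exact r (q 2) (q 3) (q 2) (q 3)
    unfold shv
    rw [h1, h2, h3]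
  · intro s z z' hz hz' hne s' hs'
    obtain ⟨y, hy1, hy2⟩ := hShd.lift (Fin 6 ⊕ Fin 6) (Sum.elim z z')
    have hlt : ∀ a b, y a < y b ↔ Sum.elim z z' a < Sum.elim z z' b := fun a b => (hy2 a b).1
    have e : Sum.elim (fun l => y (Sum.inl l)) (fun l => y (Sum.inr l)) = y := by
      funext i
      rcases i with i | i <;> rfl
    have hL : LikP 𝔹 c c₀ (fun l => y (Sum.inl l)) (fun l => y (Sum.inr l)) z z' := by
      refine ⟨by rw [e]; exact hy1, ?_⟩
      intro i j
      rw [e]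
      exact ⟨(hlt i j).symm, (hy2 i j).2.symm⟩
    have h1 := hspec _ _ z z' hL
    have hF1 : FBl P c s (fun l => y (Sum.inl l)) := by
      refine ⟨fun l => ?_, fun l l' hll => ?_⟩
      · rw [(hy2 _ _).2]
        exact hz.1 l
      · rw [(hy2 _ _).2]
        refine hz.2 l l' fun h' => hll ?_
        exact (eq_of_lt_iff hlt).2 h'
    have hF2 : FBl P c s (fun l => y (Sum.inr l)) := by
      refine ⟨fun l => ?_, fun l l' hll => ?_⟩
      · rw [(hy2 _ _).2]
        exact hz'.1 l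
      · rw [(hy2 _ _).2]
        refine hz'.2 l l' fun h' => hll ?_
        exact (eq_of_lt_iff hlt).2 h'
    have h2 := hcore.ncol s _ _ hF1 hF2 (by rw [e]; exact hy1) (fun l l' h' =>
      hne l l' ((eq_of_lt_iff hlt).1 h'))
    rw [h1] at hs'
    unfold shv at hs'
    rw [if_neg (by
      rintro ⟨s'', hs''⟩
      exact h2 s'' hs'')] at hs'
    exact absurd hs' (by simp)

end Pool.Agent.H60.AR
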